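import Pool.Agent.K7.H79.G4.Ana
import Pool.Agent.K7.H79.G4.Dyn

/-!
# The group `G₄` has no faithful action on `[0,1]` by `C^{1+1/2}` diffeomorphisms

The proof: `G₄` contains the Heisenberg group of dimension five, with centre generated by `z`. On a
component `I` of the complement of the fixed points of `z`, the stabiliser of `I` contains no two
elements whose commutator is a non-trivial power of `z`, so that it misses one of four Lagrangian
planes `ℤ²`. The images `I(i,j)` of `I` under this `ℤ²` are disjoint. Uniform averages over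
`i + j = k` show that the distortion of the maps `I → I(i,j)` is `O(1) + (log k) / 8` on average,
while `z` acts on `I(i,j)` with displacement at most `C |I(i,j)|^{3/2}`. So the lengths `|I(i,j)|`
are so large that their sum is infinite.
-/

set_option autoImplicit false

open Set

namespace Pool.Agent.Results.MP_394821_an.NoCriticalAction

/-- `G₄`: the upper triangular `4 × 4` integer matrices with all diagonal entries equal to `1`,
a subgroup of the invertible integer matrices -/
def G4 : Subgroup (Matrix (Fin 4) (Fin 4) ℤ)ˣ where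
  carrier := {M | (∀ i, M.val i i = 1) ∧ ∀ i j, j < i → M.val i j = 0}
  one_mem' := by
    refine ⟨fun i => by simp, fun i j h => ?_⟩
    simp [h.ne']
  mul_mem' := by
    rintro M N ⟨hM1, hM2⟩ ⟨hN1, hN2⟩
    constructor
    · intro i
      rw [Units.val_mul, Matrix.mul_apply, Finset.sum_eq_single i]
      · rw [hM1, hN1, one_mul]
      · intro k _ hk
        rcases lt_or_gt_of_ne hk with h | h
        · rw [hM2 i k h, zero_mul]
        · rw [hN2 k i h, mul_zero]
      · intro h
        exact absurd (Finset.mem_univ _) h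
    · intro i j hij
      rw [Units.val_mul, Matrix.mul_apply]
      refine Finset.sum_eq_zero fun k _ => ?_
      rcases lt_or_ge k i with h | h
      · rw [hM2 i k h, zero_mul]
      · rw [hN2 k j (lt_of_lt_of_le hij h), mul_zero]
  inv_mem' := by
    rintro M ⟨hM1, hM2⟩
    have hMN : M.val * M⁻¹.val = 1 := by rw [← Units.val_mul, mul_inv_cancel]; rfl
    set N := M⁻¹.val with hN
    have e : ∀ i j, ∑ k, M.val i k * N k j = (1 : Matrix (Fin 4) (Fin 4) ℤ) i j := by
      intro i j
      rw [← Matrix.mul_apply, hMN]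
    simp only [Fin.sum_univ_four] at e
    have m10 := hM2 1 0 (by decide)
    have m20 := hM2 2 0 (by decide)
    have m21 := hM2 2 1 (by decide)
    have m30 := hM2 3 0 (by decide)
    have m31 := hM2 3 1 (by decide)
    have m32 := hM2 3 2 (by decide)
    have m0 := hM1 0
    have m1 := hM1 1
    have m2 := hM1 2
    have m3 := hM1 3
    have r3 : ∀ j, N 3 j = (1 : Matrix (Fin 4) (Fin 4) ℤ) 3 j := by
      intro j
      have := e 3 j
      rw [m30, m31, m32, m3] at this
      linarith
    have r2 : ∀ j, N 2 j + M.val 2 3 * N 3 j = (1 : Matrix (Fin 4) (Fin 4) ℤ) 2 j := by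
      intro j
      have := e 2 j
      rw [m20, m21, m2] at this
      linarith
    have r1 : ∀ j, N 1 j + M.val 1 2 * N 2 j + M.val 1 3 * N 3 j
        = (1 : Matrix (Fin 4) (Fin 4) ℤ) 1 j := by
      intro j
      have := e 1 j
      rw [m10, m1] at this
      linarith
    have r0 : ∀ j, N 0 j + M.val 0 1 * N 1 j + M.val 0 2 * N 2 j + M.val 0 3 * N 3 j
        = (1 : Matrix (Fin 4) (Fin 4) ℤ) 0 j := by
      intro j
      have := e 0 j
      rw [m0] at this
      linarith
    have o : ∀ i j : Fin 4, (1 : Matrix (Fin 4) (Fin 4) ℤ) i j = if i = j then 1 else 0 :=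
      fun i j => Matrix.one_apply
    have n30 : N 3 0 = 0 := by rw [r3, o]; decide
    have n31 : N 3 1 = 0 := by rw [r3, o]; decide
    have n32 : N 3 2 = 0 := by rw [r3, o]; decide
    have n33 : N 3 3 = 1 := by rw [r3, o]; decide
    have n20 : N 2 0 = 0 := by
      have := r2 0
      rw [n30, o, if_neg (by decide)] at this
      linarith
    have n21 : N 2 1 = 0 := by
      have := r2 1
      rw [n31, o, if_neg (by decide)] at this
      linarith
    have n22 : N 2 2 = 1 := by
      have := r2 2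
      rw [n32, o, if_pos rfl] at this
      linarith
    have n10 : N 1 0 = 0 := by
      have := r1 0
      rw [n30, n20, o, if_neg (by decide)] at this
      linarith
    have n11 : N 1 1 = 1 := by
      have := r1 1
      rw [n31, n21, o, if_pos rfl] at this
      linarith
    have n00 : N 0 0 = 1 := by
      have := r0 0
      rw [n30, n20, n10, o, if_pos rfl] at this
      linarith
    constructor
    · intro i
      fin_cases i
      · exact n00
      · exact n11
      · exact n22
      · exact n33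
    · intro i j hij
      fin_cases i <;> fin_cases j <;> first | exact absurd hij (by decide) | assumption

/-- A permutation of `[0,1]` as a function on `ℝ` (constant on `(-∞,0]` and on `[1,∞)`). -/
noncomputable def toFun (f : Equiv.Perm (Icc (0 : ℝ) 1)) (t : ℝ) : ℝ :=
  (f (projIcc 0 1 zero_le_one t) : ℝ)

/-- `f` is a `C^{1+α}` diffeomorphism of `[0,1]`: a bijection with a derivative `f'` on `[0,1]`
(one-sided at the end points) which does not vanish and is `α`-Hölder continuous. -/
def IsDiffeo (α : ℝ) (f : Equiv.Perm (Icc (0 : ℝ) 1)) : Prop :=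
  ∃ f' : ℝ → ℝ, (∀ x ∈ Icc (0 : ℝ) 1, HasDerivWithinAt (toFun f) (f' x) (Icc 0 1) x) ∧
    (∀ x ∈ Icc (0 : ℝ) 1, f' x ≠ 0) ∧
    ∃ C : ℝ, ∀ x ∈ Icc (0 : ℝ) 1, ∀ y ∈ Icc (0 : ℝ) 1, |f' x - f' y| ≤ C * |x - y| ^ α

/-- `G₄` embeds into `Diff^{1+α}([0,1])`. -/
def Embeds (α : ℝ) : Prop :=
  ∃ ρ : G4 →* Equiv.Perm (Icc (0 : ℝ) 1), Function.Injective ρ ∧ ∀ g, IsDiffeo α (ρ g)

/-! ### Auxiliary lemmas -/

open Pool.Agent.K7.H79.G4

lemma toFun_coe (f : Equiv.Perm (Icc (0 : ℝ) 1)) (x : Icc (0 : ℝ) 1) : toFun f x = (f x : ℝ) := by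
  unfold toFun
  rw [projIcc_val]

lemma toFun_mem (f : Equiv.Perm (Icc (0 : ℝ) 1)) (t : ℝ) : toFun f t ∈ Icc (0 : ℝ) 1 :=
  (f _).2

lemma toFun_mul (f g : Equiv.Perm (Icc (0 : ℝ) 1)) (t : ℝ) :
    toFun (f * g) t = toFun f (toFun g t) := by
  unfold toFun
  rw [projIcc_val]
  rfl

/-- either increasing or decreasing -/
lemma mono_or_anti {f : Equiv.Perm (Icc (0 : ℝ) 1)} (h : IsDiffeo (1 / 2) f) :
    StrictMono f ∨ StrictAnti f := by
  obtain ⟨f', h1, h2, C, h3⟩ := h
  have hc : ContinuousOn f' (Icc 0 1) := by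
    apply cont_of_hold (C := C)
    intro x hx y hy
    rw [Real.sqrt_eq_rpow]
    exact h3 x hx y hy
  by_cases hpos : ∀ x ∈ Icc (0 : ℝ) 1, 0 < f' x
  · left
    have hm := strictMono_of_deriv h1 hpos
    intro x y hxy
    have := hm x.2 y.2 hxy
    rw [toFun_coe, toFun_coe] at this
    exact this
  · right
    push Not at hpos
    obtain ⟨x0, hx0, hx0'⟩ := hpos
    have hneg0 : f' x0 < 0 := lt_of_le_of_ne hx0' (h2 x0 hx0)
    have hneg : ∀ x ∈ Icc (0 : ℝ) 1, f' x < 0 := by
      intro x hx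
      by_contra hcon
      push Not at hcon
      have hx' : 0 < f' x := lt_of_le_of_ne hcon (h2 x hx).symm
      have himg := isPreconnected_Icc.intermediate_value hx0 hx hc
      obtain ⟨y, hy, hy0⟩ := himg ⟨hneg0.le, hx'.le⟩
      exact h2 y hy hy0
    have hm := strictMono_of_deriv (f := fun t => -toFun f t) (f' := fun t => -f' t)
      (fun x hx => (h1 x hx).neg) (fun x hx => neg_pos.2 (hneg x hx))
    intro x y hxy
    have := hm x.2 y.2 hxy
    simp only [toFun_coe] at this
    have h4 : (f y : ℝ) < f x := by linarith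
    exact h4

lemma sq_mono {f : Equiv.Perm (Icc (0 : ℝ) 1)} (h : IsDiffeo (1 / 2) f) :
    StrictMono (f * f : Equiv.Perm (Icc (0 : ℝ) 1)) := by
  rcases mono_or_anti h with h1 | h1
  · exact h1.comp h1
  · exact h1.comp h1

lemma d32_of {f : Equiv.Perm (Icc (0 : ℝ) 1)} (h : IsDiffeo (1 / 2) f) (hm : StrictMono f) :
    ∃ (f' : ℝ → ℝ) (C : ℝ), 0 < C ∧ D32 (toFun f) f' C := by
  obtain ⟨f', h1, h2, C, h3⟩ := h
  refine ⟨f', max C 1, lt_max_of_lt_right one_pos, ⟨fun x _ => toFun_mem f x, h1, ?_, ?_⟩⟩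
  · intro x hx
    have hmon : MonotoneOn (toFun f) (Icc 0 1) := by
      intro y _ z _ hyz
      unfold toFun
      exact hm.monotone (monotone_projIcc zero_le_one hyz)
    have h4 : 0 ≤ f' x := by
      have h5 := hmon.derivWithin_nonneg (x := x)
      rwa [(h1 x hx).derivWithin (uniqueDiffOn_Icc zero_lt_one x hx)] at h5
    exact lt_of_le_of_ne h4 (h2 x hx).symm
  · intro x hx y hy
    rw [Real.sqrt_eq_rpow]
    exact (h3 x hx y hy).trans (mul_le_mul_of_nonneg_right (le_max_left _ _) (by positivity))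

/-- the elements of the Heisenberg subgroup -/
def wm (v : ℤ × ℤ × ℤ × ℤ) (t : ℤ) : Matrix (Fin 4) (Fin 4) ℤ :=
  !![1, v.1, v.2.2.1, t; 0, 1, 0, v.2.1; 0, 0, 1, v.2.2.2; 0, 0, 0, 1]

lemma wm_mul (v t v' t') : wm v t * wm v' t' = wm (v + v') (t + t' + bet v v') := by
  unfold wm bet
  ext i j
  fin_cases i <;> fin_cases j <;> simp [Matrix.mul_apply, Fin.sum_univ_four] <;> ring

lemma wm_zero : wm 0 0 = 1 := by
  unfold wm
  ext i j
  fin_cases i <;> fin_cases j <;> simp

/-- the elements of the Heisenberg subgroup -/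
def wu (v : ℤ × ℤ × ℤ × ℤ) (t : ℤ) : (Matrix (Fin 4) (Fin 4) ℤ)ˣ where
  val := wm v t
  inv := wm (-v) (-t + bet v v)
  val_inv := by
    rw [wm_mul, ← wm_zero]
    congr 1
    · simp
    · simp [bet]
      ring
  inv_val := by
    rw [wm_mul, ← wm_zero]
    congr 1
    · simp
    · simp [bet]
      ring

/-- the elements of the Heisenberg subgroup -/
def wg (v : ℤ × ℤ × ℤ × ℤ) (t : ℤ) : G4 := ⟨wu v t, by
  constructor
  · intro i
    fin_cases i <;> rfl
  · intro i j hij
    fin_cases i <;> fin_cases j <;> first | exact absurd hij (by decide) | rfl⟩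

lemma wg_mul (v t v' t') : wg v t * wg v' t' = wg (v + v') (t + t' + bet v v') := by
  apply Subtype.ext
  apply Units.ext
  exact wm_mul v t v' t'

/-- squares of elements of the Heisenberg subgroup -/
def ug (v : ℤ × ℤ × ℤ × ℤ) (t : ℤ) : G4 := wg ((4 : ℤ) • v) (16 * t)

lemma ug_mul (v t v' t') : ug v t * ug v' t' = ug (v + v') (t + t' + bet v v') := by
  unfold ug
  rw [wg_mul, smul_add]
  congr 1
  simp only [bet, Prod.smul_fst, Prod.smul_snd, smul_eq_mul]
  ring

lemma ug_sq (v t) : ug v t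
    = wg ((2 : ℤ) • v) (8 * t - 2 * bet v v) * wg ((2 : ℤ) • v) (8 * t - 2 * bet v v) := by
  unfold ug
  rw [wg_mul, ← add_smul]
  congr 1
  simp only [bet, Prod.smul_fst, Prod.smul_snd, smul_eq_mul]
  ring

lemma ug_ne : ug 0 1 ≠ 1 := by
  intro h
  have h1 := congrArg (fun g : G4 => (g : (Matrix (Fin 4) (Fin 4) ℤ)ˣ).val 0 3) h
  have h2 : (ug 0 1 : (Matrix (Fin 4) (Fin 4) ℤ)ˣ).val 0 3 = 16 := by
    change wm ((4 : ℤ) • 0) (16 * 1) 0 3 = 16
    simp [wm]
  have h3 : ((1 : G4) : (Matrix (Fin 4) (Fin 4) ℤ)ˣ).val 0 3 = 0 := by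
    simp
  simp only [h2, h3] at h1
  exact absurd h1 (by norm_num)

/-- **Main result.** There is no injective homomorphism from `G₄` into the group of `C^{1+1/2}`
diffeomorphisms of `[0,1]`. -/
theorem result : ¬ Embeds (1 / 2) := by
  rintro ⟨ρ, hinj, hρ⟩
  have hsm : ∀ v t, StrictMono (ρ (ug v t)) := by
    intro v t
    rw [ug_sq, map_mul]
    exact sq_mono (hρ _)
  set U : ℤ × ℤ × ℤ × ℤ → ℤ → Icc (0 : ℝ) 1 ≃o Icc (0 : ℝ) 1 := fun v t =>
    (hsm v t).orderIsoOfSurjective _ (ρ (ug v t)).surjective with hU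
  have hUc : ∀ v t x, U v t x = ρ (ug v t) x := fun v t x => rfl
  have hH : Heis U := by
    refine ⟨fun v t v' t' x => ?_, ?_⟩
    · rw [hUc, hUc, hUc, ← ug_mul, map_mul]
      rfl
    · by_contra hcon
      push Not at hcon
      apply ug_ne
      apply hinj
      rw [map_one]
      ext x
      exact congrArg Subtype.val (hcon x)
  obtain ⟨p, q, w, hpw, hwq, hzp, hzq, hzw, v1, v2, hlag, hdis⟩ := exists_family hH
  -- the maps
  obtain ⟨a', Ca, hCa, ha⟩ := d32_of (hρ (ug v1 0)) (hsm _ _)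
  obtain ⟨b', Cb, hCb, hb⟩ := d32_of (hρ (ug v2 0)) (hsm _ _)
  obtain ⟨z', Cz, hCz, hz⟩ := d32_of (hρ (ug 0 1)) (hsm _ _)
  obtain ⟨Ka, hKa0, hKa⟩ := log_hold ha
  obtain ⟨Kb, hKb0, hKb⟩ := log_hold hb
  set K : ℝ := max 1 (max Ka Kb) with hK
  have hK1 : 1 ≤ K := le_max_left _ _
  have hKK : 0 ≤ K := by linarith
  have hKa' : ∀ x ∈ Icc (0 : ℝ) 1, ∀ y ∈ Icc (0 : ℝ) 1,
      |Real.log (a' x) - Real.log (a' y)| ≤ K * √|x - y| := fun x hx y hy =>
    (hKa x hx y hy).trans (mul_le_mul_of_nonneg_right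
      ((le_max_left _ _).trans (le_max_right _ _)) (Real.sqrt_nonneg _))
  have hKb' : ∀ x ∈ Icc (0 : ℝ) 1, ∀ y ∈ Icc (0 : ℝ) 1,
      |Real.log (b' x) - Real.log (b' y)| ≤ K * √|x - y| := fun x hx y hy =>
    (hKb x hx y hy).trans (mul_le_mul_of_nonneg_right
      ((le_max_right _ _).trans (le_max_right _ _)) (Real.sqrt_nonneg _))
  set e : ℕ → ℕ → ℤ × ℤ × ℤ × ℤ := fun i j => (i : ℤ) • v1 + (j : ℤ) • v2 with he
  set V : ℕ → ℕ → ℝ → ℝ := fun i j => toFun (ρ (ug (e i j) 0)) with hV
  have hp1 : (0 : ℝ) ≤ p := p.2.1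
  have hq1 : (q : ℝ) ≤ 1 := q.2.2
  have hpq : (p : ℝ) < q := lt_trans (show (p : ℝ) < w from hpw) (show (w : ℝ) < q from hwq)
  have hV00 : ∀ x ∈ Icc (0 : ℝ) 1, V 0 0 x = x := by
    intro x hx
    have e0 : e 0 0 = 0 := by simp [he]
    simp only [hV]
    rw [e0]
    have h1 := hH.one ⟨x, hx⟩
    rw [hUc] at h1
    have h2 := toFun_coe (ρ (ug 0 0)) ⟨x, hx⟩
    rw [h1] at h2
    exact h2
  have hVl : ∀ i j x, V (i + 1) j x = toFun (ρ (ug v1 0)) (V i j x) := by
    intro i j x
    simp only [hV]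
    rw [← toFun_mul, ← map_mul, ug_mul]
    have h1 : bet v1 (e i j) = 0 := by
      have := hlag 1 0 i j
      simpa [he] using this
    rw [h1]
    congr 3
    simp only [he]
    push_cast
    rw [add_smul, one_smul]
    abel
  have hVr : ∀ i j x, V i (j + 1) x = toFun (ρ (ug v2 0)) (V i j x) := by
    intro i j x
    simp only [hV]
    rw [← toFun_mul, ← map_mul, ug_mul]
    have h1 : bet v2 (e i j) = 0 := by
      have := hlag 0 1 i j
      simpa [he] using this
    rw [h1]
    congr 3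
    simp only [he]
    push_cast
    rw [add_smul, one_smul]
    abel
  have hVz : ∀ i j x, toFun (ρ (ug 0 1)) (V i j x) = V i j (toFun (ρ (ug 0 1)) x) := by
    intro i j x
    simp only [hV]
    rw [← toFun_mul, ← toFun_mul, ← map_mul, ← map_mul, ug_mul, ug_mul, bet_zero_left,
      bet_zero_right, zero_add, add_zero, add_zero, add_zero]
    rfl
  set l : ℕ → ℕ → ℝ := fun i j => V i j q - V i j p with hl
  -- distortion
  have hQ : ∀ n i j : ℕ, i + j = n → Q p q (V i j) (Drec K (fun i j => √(l i j)) i j) := by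
    intro n
    induction n with
    | zero =>
      intro i j hij
      obtain ⟨rfl, rfl⟩ : i = 0 ∧ j = 0 := by omega
      rw [Drec]
      refine ⟨fun _ => 1, ?_, fun _ _ => one_pos, fun x _ => toFun_mem _ _, ?_⟩
      · intro x hx
        exact (hasDerivWithinAt_id x _).congr hV00 (hV00 x hx)
      · intro x _ y _
        simp
    | succ n ih =>
      intro i j hij
      have hleft : ∀ i', i = i' + 1 →
          Q p q (V i j) (Drec K (fun i j => √(l i j)) i' j + K * √(l i' j)) := by
        intro i' hi'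
        subst hi'
        exact Q_step hp1 hpq hq1 (ih i' j (by omega)) ha hKa' hKK (fun x _ => hVl i' j x)
      have hright : ∀ j', j = j' + 1 →
          Q p q (V i j) (Drec K (fun i j => √(l i j)) i j' + K * √(l i j')) := by
        intro j' hj'
        subst hj'
        exact Q_step hp1 hpq hq1 (ih i j' (by omega)) hb hKb' hKK (fun x _ => hVr i j' x)
      rcases i with _ | i
      · rcases j with _ | j
        · omega
        · rw [Drec]; exact hright j rfl
      · rcases j with _ | j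
        · rw [Drec]; exact hleft i rfl
        · rw [Drec]
          rcases min_choice (Drec K (fun i j => √(l i j)) i (j + 1) + K * √(l i (j + 1)))
            (Drec K (fun i j => √(l i j)) (i + 1) j + K * √(l (i + 1) j)) with h | h
          · rw [h]; exact hleft i rfl
          · rw [h]; exact hright j rfl
  have hzp' : toFun (ρ (ug 0 1)) p = p := by
    rw [toFun_coe]; exact congrArg Subtype.val hzp
  have hzq' : toFun (ρ (ug 0 1)) q = q := by
    rw [toFun_coe]; exact congrArg Subtype.val hzq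
  have hlow : ∀ i j, 0 < l i j ∧ (|toFun (ρ (ug 0 1)) w - w| / Cz) ^ 2
      * Real.exp (-(2 * Drec K (fun i j => √(l i j)) i j)) ≤ l i j := by
    intro i j
    exact length_low hp1 hpq hq1 (hQ _ i j rfl) hz (fun x _ => hVz i j x) hzp' hzq'
      (w := (w : ℝ)) ⟨hpw, hwq⟩ hCz
  have hcpos : 0 < (|toFun (ρ (ug 0 1)) w - w| / Cz) ^ 2 := by
    have h1 : toFun (ρ (ug 0 1)) w - w ≠ 0 := by
      rw [toFun_coe, sub_ne_zero]
      intro h
      exact hzw (Subtype.ext h)
    have h2 : 0 < |toFun (ρ (ug 0 1)) w - w| := abs_pos.2 h1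
    positivity
  refine growth (Drec K fun i j => √(l i j)) l hK1 hcpos (fun i j => (hlow i j).1.le) ?_
    (Drec_left K _) (Drec_right K _) (fun i j => (hlow i j).2) ?_
  · rw [Drec]
  · -- the intervals are disjoint
    intro n
    rw [Finset.sum_sigma']
    set s : Finset (Σ _ : ℕ, ℕ) := (Finset.range n).sigma fun k => Finset.range (k + 1) with hs
    set J : (Σ _ : ℕ, ℕ) → Set ℝ := fun x => Ioo (V x.2 (x.1 - x.2) p) (V x.2 (x.1 - x.2) q)
      with hJ
    have hVle : ∀ (i j : ℕ) (y : Icc (0 : ℝ) 1), V i j y = (U (e i j) 0 y : ℝ) := by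
      intro i j y
      simp only [hV]
      rw [toFun_coe]
      rfl
    have hdisj : (s : Set (Σ _ : ℕ, ℕ)).PairwiseDisjoint J := by
      intro x hx y hy hxy
      simp only [hs, Finset.coe_sigma, Set.mem_sigma_iff, Finset.coe_range, Set.mem_Iio] at hx hy
      have hne : (((x.2 : ℕ) : ℤ), ((x.1 - x.2 : ℕ) : ℤ))
          ≠ (((y.2 : ℕ) : ℤ), ((y.1 - y.2 : ℕ) : ℤ)) := by
        intro h
        rw [Prod.mk.injEq] at h
        obtain ⟨h1, h2⟩ := h
        apply hxy
        have h3 : x.2 = y.2 := by exact_mod_cast h1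
        have h4 : x.1 - x.2 = y.1 - y.2 := by exact_mod_cast h2
        have h5 : x.1 = y.1 := by omega
        exact Sigma.ext h5 (heq_of_eq h3)
      rw [Function.onFun, Set.disjoint_left]
      intro r hr1 hr2
      simp only [hJ, mem_Ioo, hVle] at hr1 hr2
      rcases hdis _ _ _ _ hne with h1 | h1
      · have h2 : (U (e x.2 (x.1 - x.2)) 0 q : ℝ) ≤ (U (e y.2 (y.1 - y.2)) 0 p : ℝ) := h1
        linarith [hr1.2, hr2.1]
      · have h2 : (U (e y.2 (y.1 - y.2)) 0 q : ℝ) ≤ (U (e x.2 (x.1 - x.2)) 0 p : ℝ) := h1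
        linarith [hr1.1, hr2.2]
    have hmeas := MeasureTheory.measure_biUnion_finset (μ := MeasureTheory.volume) hdisj
      (fun x _ => measurableSet_Ioo)
    have hsub : (⋃ x ∈ s, J x) ⊆ Icc (0 : ℝ) 1 := by
      intro r hr
      rw [Set.mem_iUnion₂] at hr
      obtain ⟨x, _, hr⟩ := hr
      simp only [hJ, mem_Ioo] at hr
      have h1 := toFun_mem (ρ (ug (e x.2 (x.1 - x.2)) 0)) p
      have h2 := toFun_mem (ρ (ug (e x.2 (x.1 - x.2)) 0)) q
      exact ⟨h1.1.trans hr.1.le, hr.2.le.trans h2.2⟩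
    have hle := MeasureTheory.measure_mono (μ := MeasureTheory.volume) hsub
    rw [hmeas, Real.volume_Icc] at hle
    simp only [hJ, Real.volume_Ioo] at hle
    rw [← ENNReal.ofReal_sum_of_nonneg (fun x _ => (hlow _ _).1.le), sub_zero] at hle
    exact (ENNReal.ofReal_le_ofReal_iff zero_le_one).1 hle

end Pool.Agent.Results.MP_394821_an.NoCriticalAction
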